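import Pool.Agent.Lib.MP_e11118_lc.Defs

/-! First acceptance, determinism. -/

set_option autoImplicit false

namespace Pool.Agent.Lib.MP_e11118_lc

variable {A : Type}

/-- the first final state is reached after `t` steps with the changes `ms` -/
inductive Acc (M : Forg A) : Conf A M.S → ℕ → List (Sym A) → Prop
  | done {c : Conf A M.S} : c.st ∈ M.F → Acc M c 0 []
  | step {c c' : Conf A M.S} {o ms : List (Sym A)} {t : ℕ} : c.st ∉ M.F → Step M c c' o →
      Acc M c' t ms → Acc M c (t + 1) (o ++ ms)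

theorem Acc.of_run {M : Forg A} {c c' : Conf A M.S} {t : ℕ} {ms : List (Sym A)}
    (h : Run M c c' t ms) (hF : c'.st ∈ M.F) :
    ∃ t' ms', Acc M c t' ms' ∧ t' ≤ t ∧ ms'.length ≤ ms.length := by
  induction h with
  | refl c => exact ⟨0, [], .done hF, le_rfl, le_rfl⟩
  | @step c c' c'' o ms t hs hr ih =>
    by_cases hc : c.st ∈ M.F
    · exact ⟨0, [], .done hc, Nat.zero_le _, Nat.zero_le _⟩
    · obtain ⟨t', ms', h1, h2, h3⟩ := ih hF
      refine ⟨t' + 1, o ++ ms', .step hc hs h1, by omega, ?_⟩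
      simp only [List.length_append]
      omega

theorem Acc.run {M : Forg A} {c : Conf A M.S} {t : ℕ} {ms : List (Sym A)}
    (h : Acc M c t ms) : ∃ c', Run M c c' t ms ∧ c'.st ∈ M.F := by
  induction h with
  | done hc => exact ⟨_, .refl _, hc⟩
  | step hc hs hr ih =>
    obtain ⟨c', h1, h2⟩ := ih
    exact ⟨c', .step hs h1, h2⟩

/-- the effect of an operation -/
def act {S : Type} (s : S) (x : Sym A) (r : List (Sym A)) :
    Op → List (Sym A) → Option (Conf A S × List (Sym A))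
  | Op.mvL, y :: l => some (⟨l, s, y :: x :: r⟩, [])
  | Op.erL, y :: l => some (⟨l, s, y :: Sym.blank :: r⟩, lost x)
  | Op.dlL, y :: l => some (⟨l, s, y :: r⟩, [x])
  | Op.mvR, l => some (⟨x :: l, s, r⟩, [])
  | Op.erR, l => some (⟨Sym.blank :: l, s, r⟩, lost x)
  | Op.dlR, l => some (⟨l, s, r⟩, [x])
  | _, [] => none

theorem step_iff {M : Forg A} {c c' : Conf A M.S} {o : List (Sym A)} :
    Step M c c' o ↔ ∃ (x : Sym A) (r : List (Sym A)) (s' : M.S) (p : Op),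
      c.right = x :: r ∧ (s', p) ∈ M.δ c.st x ∧ act s' x r p c.left = some (c', o) := by
  constructor
  · intro h
    cases h with
    | mvL h => exact ⟨_, _, _, _, rfl, h, rfl⟩
    | mvR h => exact ⟨_, _, _, _, rfl, h, rfl⟩
    | erL h => exact ⟨_, _, _, _, rfl, h, rfl⟩
    | erR h => exact ⟨_, _, _, _, rfl, h, rfl⟩
    | dlL h => exact ⟨_, _, _, _, rfl, h, rfl⟩
    | dlR h => exact ⟨_, _, _, _, rfl, h, rfl⟩
  · rintro ⟨x, r, s', p, h1, h2, h3⟩
    obtain ⟨l, s, r0⟩ := c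
    simp only at h1 h2 h3
    subst h1
    cases p <;> cases l <;> simp only [act, Option.some.injEq, Prod.mk.injEq, reduceCtorEq] at h3
    all_goals obtain ⟨rfl, rfl⟩ := h3
    all_goals first
      | exact Step.mvL h2
      | exact Step.mvR h2
      | exact Step.erL h2
      | exact Step.erR h2
      | exact Step.dlL h2
      | exact Step.dlR h2

theorem Step.det {M : Forg A} (hM : M.Det) {c c₁ c₂ : Conf A M.S} {o₁ o₂ : List (Sym A)}
    (h₁ : Step M c c₁ o₁) (h₂ : Step M c c₂ o₂) : c₁ = c₂ ∧ o₁ = o₂ := by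
  obtain ⟨x, r, s', p, a1, a2, a3⟩ := step_iff.mp h₁
  obtain ⟨x', r', s'', p', b1, b2, b3⟩ := step_iff.mp h₂
  rw [a1] at b1
  obtain ⟨rfl, rfl⟩ := List.cons.inj b1
  have := hM _ _ a2 b2
  obtain ⟨rfl, rfl⟩ := Prod.mk.inj this
  rw [a3] at b3
  exact Prod.mk.inj (Option.some.inj b3)

theorem Acc.det {M : Forg A} (hM : M.Det) {c : Conf A M.S} {t₁ t₂ : ℕ} {m₁ m₂ : List (Sym A)}
    (h₁ : Acc M c t₁ m₁) (h₂ : Acc M c t₂ m₂) : t₁ = t₂ ∧ m₁ = m₂ := by
  induction h₁ generalizing t₂ m₂ with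
  | done hc =>
    cases h₂ with
    | done _ => exact ⟨rfl, rfl⟩
    | step hc' _ _ => exact absurd hc hc'
  | step hc hs _ ih =>
    cases h₂ with
    | done hc' => exact absurd hc' hc
    | step hc' hs' h' =>
      obtain ⟨rfl, rfl⟩ := Step.det hM hs hs'
      obtain ⟨rfl, rfl⟩ := ih h'
      exact ⟨rfl, rfl⟩

theorem mem_lang_iff {M : Forg A} {w : List A} :
    w ∈ M.lang ↔ ∃ t ms, Acc M (M.init w) t ms := by
  constructor
  · rintro ⟨c, t, ms, h1, h2⟩
    obtain ⟨t', ms', h3, _⟩ := Acc.of_run h1 h2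
    exact ⟨t', ms', h3⟩
  · rintro ⟨t, ms, h⟩
    obtain ⟨c', h1, h2⟩ := h.run
    exact ⟨c', t, ms, h1, h2⟩

theorem acceptsChanges_iff {M : Forg A} {w : List A} {m : ℕ} :
    M.AcceptsChanges w m ↔ ∃ t ms, Acc M (M.init w) t ms ∧ ms.length ≤ m := by
  constructor
  · rintro ⟨c, t, ms, h1, h2, h3⟩
    obtain ⟨t', ms', h4, _, h5⟩ := Acc.of_run h1 h2
    exact ⟨t', ms', h4, h5.trans h3⟩
  · rintro ⟨t, ms, h, h3⟩
    obtain ⟨c', h1, h2⟩ := h.run
    exact ⟨c', t, ms, h1, h2, h3⟩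

theorem acceptsTime_iff {M : Forg A} {w : List A} {T : ℕ} :
    M.AcceptsTime w T ↔ ∃ t ms, Acc M (M.init w) t ms ∧ t ≤ T := by
  constructor
  · rintro ⟨c, t, ms, h1, h2, h3⟩
    obtain ⟨t', ms', h4, h5, _⟩ := Acc.of_run h1 h2
    exact ⟨t', ms', h4, h5.trans h3⟩
  · rintro ⟨t, ms, h, h3⟩
    obtain ⟨c', h1, h2⟩ := h.run
    exact ⟨c', t, ms, h1, h2, h3⟩

end Pool.Agent.Lib.MP_e11118_lc
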