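import Pool.Agent.Lib.MP_e11118_lc.Cut

/-! The number of changes: at most `2 |w|`; if it is sublinear then it is bounded. -/

set_option autoImplicit false

namespace Pool.Agent.Lib.MP_e11118_lc

variable {A : Type}

/-- weight of a symbol: the number of changes it can still undergo -/
def sw : Sym A → ℕ
  | Sym.letter _ => 2
  | Sym.blank => 1
  | _ => 0

/-- weight of a list -/
def lw (l : List (Sym A)) : ℕ := (l.map sw).sum

theorem lw_cons (x : Sym A) (l : List (Sym A)) : lw (x :: l) = sw x + lw l := by
  simp [lw]

theorem lw_append (l r : List (Sym A)) : lw (l ++ r) = lw l + lw r := by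
  simp [lw]

theorem sw_er {x : Sym A} (h1 : x ≠ Sym.lend) (h2 : x ≠ Sym.rend) :
    1 + (lost x).length ≤ sw x := by
  cases x <;> simp [sw, lost] at *

theorem sw_dl {x : Sym A} (h1 : x ≠ Sym.lend) (h2 : x ≠ Sym.rend) : 1 ≤ sw x := by
  cases x <;> simp [sw] at *

theorem Forg.not_lend {M : Forg A} {s s' : M.S} {x : Sym A} {p : Op} (h : (s', p) ∈ M.δ s x)
    (hp : p ≠ Op.mvR) : x ≠ Sym.lend := by
  rintro rfl
  exact hp (M.on_lend _ _ h)

theorem Forg.not_rend {M : Forg A} {s s' : M.S} {x : Sym A} {p : Op} (h : (s', p) ∈ M.δ s x)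
    (hp : p ≠ Op.mvL) : x ≠ Sym.rend := by
  rintro rfl
  exact hp (M.on_rend _ _ h)

theorem Step.weight {M : Forg A} {c c' : Conf A M.S} {o : List (Sym A)} (h : Step M c c' o) :
    lw c'.left + lw c'.right + o.length ≤ lw c.left + lw c.right := by
  cases h with
  | mvL hd => simp only [lw_cons, List.length_nil]; omega
  | mvR hd => simp only [lw_cons, List.length_nil]; omega
  | erL hd =>
    have := sw_er (Forg.not_lend hd (by simp)) (Forg.not_rend hd (by simp))
    simp only [lw_cons]
    have h1 : sw (Sym.blank : Sym A) = 1 := rfl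
    omega
  | erR hd =>
    have := sw_er (Forg.not_lend hd (by simp)) (Forg.not_rend hd (by simp))
    simp only [lw_cons]
    have h1 : sw (Sym.blank : Sym A) = 1 := rfl
    omega
  | dlL hd =>
    have := sw_dl (Forg.not_lend hd (by simp)) (Forg.not_rend hd (by simp))
    simp only [lw_cons, List.length_cons, List.length_nil]
    omega
  | dlR hd =>
    have := sw_dl (Forg.not_lend hd (by simp)) (Forg.not_rend hd (by simp))
    simp only [lw_cons, List.length_cons, List.length_nil]
    omega

theorem Step.len {M : Forg A} {c c' : Conf A M.S} {o : List (Sym A)} (h : Step M c c' o) :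
    c'.left.length + c'.right.length ≤ c.left.length + c.right.length := by
  cases h <;> simp only [List.length_cons] <;> omega

theorem Acc.weight {M : Forg A} {c : Conf A M.S} {t : ℕ} {ms : List (Sym A)}
    (h : Acc M c t ms) : ms.length ≤ lw c.left + lw c.right := by
  induction h with
  | done _ => simp
  | step _ hs _ ih =>
    have := hs.weight
    rw [List.length_append]
    omega

theorem lw_init (M : Forg A) (w : List A) :
    lw (M.init w).left + lw (M.init w).right = 2 * w.length := by
  have h1 : ∀ w : List A, lw (w.map Sym.letter) = 2 * w.length := by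
    intro w
    induction w with
    | nil => rfl
    | cons a w ih =>
      rw [List.map_cons, lw_cons, ih, List.length_cons]
      have : sw (Sym.letter a) = 2 := rfl
      omega
  simp only [Forg.init, lw_cons, lw_append, h1]
  simp [lw, sw]

theorem Acc.le_two {M : Forg A} {w : List A} {t : ℕ} {ms : List (Sym A)}
    (h : Acc M (M.init w) t ms) : ms.length ≤ 2 * w.length := by
  rw [← lw_init M w]
  exact h.weight

theorem bounded_of_sublinear {M : Forg A} (hM : M.Det) {n₀ : ℕ}
    (h : ∀ w ∈ M.lang, n₀ ≤ w.length → M.AcceptsChanges w (w.length / (2 * M.bd))) :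
    ∃ C : ℕ, ∀ w ∈ M.lang, M.AcceptsChanges w C := by
  have hB : 0 < M.bd := Nat.succ_pos _
  have key : ∀ (n : ℕ) (w : List A), w.length = n → ∀ t ms, Acc M (M.init w) t ms →
      ms.length ≤ 2 * max n₀ (2 * M.bd) := by
    intro n
    induction n using Nat.strong_induction_on with
    | _ n ih =>
      intro w hw t ms hacc
      by_cases hn : w.length < max n₀ (2 * M.bd)
      · have := hacc.le_two
        omega
      · have h1 : n₀ ≤ w.length := by omega
        have h2 : 2 * M.bd ≤ w.length := by omega
        obtain ⟨t', ms', h3, h4⟩ := acceptsChanges_iff.mp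
          (h w (mem_lang_iff.mpr ⟨t, ms, hacc⟩) h1)
        obtain ⟨_, rfl⟩ := Acc.det hM hacc h3
        have h5 : (ms.length + 1) * M.bd ≤ w.length := by
          have h6 : ms.length * (2 * M.bd) ≤ w.length :=
            (Nat.mul_le_mul_right _ h4).trans (Nat.div_mul_le_self _ _)
          nlinarith
        obtain ⟨w', t'', ms'', h7, h8, h9⟩ := cut hacc h5
        rw [← h9]
        exact ih w'.length (by omega) w' rfl t'' ms'' h8
  refine ⟨2 * max n₀ (2 * M.bd), fun w hw => ?_⟩
  obtain ⟨t, ms, hacc⟩ := mem_lang_iff.mp hw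
  exact acceptsChanges_iff.mpr ⟨t, ms, hacc, key _ w rfl t ms hacc⟩

end Pool.Agent.Lib.MP_e11118_lc
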