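import Pool.Agent.Lib.MP_e11118_lc.Basic

/-! Replacing a part of the list which is never changed. -/

set_option autoImplicit false

namespace Pool.Agent.Lib.MP_e11118_lc

variable {A : Type}

theorem act_cases {S : Type} (s : S) (x : Sym A) (r : List (Sym A)) (p : Op) :
    (∃ r' o, (∀ z L, act s x r p (z :: L) = some (⟨L, s, z :: r'⟩, o)) ∧ act s x r p [] = none) ∨
    ∃ pre r' o, ∀ L, act s x r p L = some (⟨pre ++ L, s, r'⟩, o) := by
  cases p
  · exact Or.inl ⟨_, _, fun _ _ => rfl, rfl⟩
  · exact Or.inr ⟨[x], r, [], fun _ => rfl⟩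
  · exact Or.inl ⟨_, _, fun _ _ => rfl, rfl⟩
  · exact Or.inr ⟨[Sym.blank], r, lost x, fun _ => rfl⟩
  · exact Or.inl ⟨_, _, fun _ _ => rfl, rfl⟩
  · exact Or.inr ⟨[], r, [x], fun _ => rfl⟩

theorem act_right {S : Type} (s : S) (x : Sym A) (r Q l : List (Sym A)) (p : Op) :
    act s x (r ++ Q) p l =
      (act s x r p l).map fun q => (⟨q.1.left, q.1.st, q.1.right ++ Q⟩, q.2) := by
  cases p <;> cases l <;> rfl

theorem step_right {M : Forg A} {l r Q o : List (Sym A)} {s : M.S} {x : Sym A}
    {c' : Conf A M.S} : Step M ⟨l, s, x :: (r ++ Q)⟩ c' o ↔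
      ∃ d, Step M ⟨l, s, x :: r⟩ d o ∧ c' = ⟨d.left, d.st, d.right ++ Q⟩ := by
  constructor
  · intro h
    obtain ⟨x', r', s', p, h1, h2, h3⟩ := step_iff.mp h
    obtain ⟨rfl, rfl⟩ := List.cons.inj h1
    change act s' x (r ++ Q) p l = _ at h3
    rw [act_right] at h3
    cases h4 : act s' x r p l with
    | none => rw [h4] at h3; simp at h3
    | some q =>
      rw [h4] at h3
      simp only [Option.map_some, Option.some.injEq, Prod.mk.injEq] at h3
      refine ⟨q.1, step_iff.mpr ⟨x, r, s', p, rfl, h2, ?_⟩, h3.1.symm⟩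
      change act s' x r p l = _
      rw [h4, ← h3.2]
  · rintro ⟨d, h, rfl⟩
    obtain ⟨x', r', s', p, h1, h2, h3⟩ := step_iff.mp h
    obtain ⟨rfl, rfl⟩ := List.cons.inj h1
    refine step_iff.mpr ⟨x, r ++ Q, s', p, rfl, h2, ?_⟩
    change act s' x (r ++ Q) p l = _
    change act s' x r p l = _ at h3
    rw [act_right, h3]
    rfl

/-- the computation inside a part of the list without changes -/
inductive SL (M : Forg A) : List (Sym A) → M.S → List (Sym A) → Option (Bool × M.S) → Prop
  | acc {l r : List (Sym A)} {s : M.S} : s ∈ M.F → SL M l s r none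
  | exR {l : List (Sym A)} {s s' : M.S} {x : Sym A} : s ∉ M.F → (s', Op.mvR) ∈ M.δ s x →
      SL M l s [x] (some (true, s'))
  | exL {r : List (Sym A)} {s s' : M.S} {x : Sym A} : s ∉ M.F → (s', Op.mvL) ∈ M.δ s x →
      SL M [] s (x :: r) (some (false, s'))
  | goR {l r : List (Sym A)} {s s' : M.S} {x y : Sym A} {o : Option (Bool × M.S)} : s ∉ M.F →
      (s', Op.mvR) ∈ M.δ s x → SL M (x :: l) s' (y :: r) o → SL M l s (x :: y :: r) o
  | goL {l r : List (Sym A)} {s s' : M.S} {x y : Sym A} {o : Option (Bool × M.S)} : s ∉ M.F →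
      (s', Op.mvL) ∈ M.δ s x → SL M l s' (y :: x :: r) o → SL M (y :: l) s (x :: r) o

/-- what happens after the computation inside the part `y` -/
def Cont (N : Forg A) (y P Q ms : List (Sym A)) (B : ℕ) : Option (Bool × N.S) → Prop
  | none => ms = []
  | some (true, s') => ∃ t' < B, Acc N ⟨y.reverse ++ P, s', Q⟩ t' ms
  | some (false, s') => ∃ t' < B, ∃ p P', P = p :: P' ∧ Acc N ⟨P', s', p :: (y ++ Q)⟩ t' ms

theorem Cont.mono {N : Forg A} {y P Q ms : List (Sym A)} {B B' : ℕ} (h : B ≤ B') :
    ∀ {o : Option (Bool × N.S)}, Cont N y P Q ms B o → Cont N y P Q ms B' o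
  | none, h' => h'
  | some (true, _), ⟨t', h1, h2⟩ => ⟨t', by omega, h2⟩
  | some (false, _), ⟨t', h1, h2⟩ => ⟨t', by omega, h2⟩

theorem SL.of_acc {N : Forg A} {T : Sym A → Prop} (hT : ∀ x, T x → lost x = [x]) :
    ∀ (t : ℕ) (l1 : List (Sym A)) (s : N.S) (r1 P Q ms : List (Sym A)), r1 ≠ [] →
      (∀ x ∈ l1, T x) → (∀ x ∈ r1, T x) → Acc N ⟨l1 ++ P, s, r1 ++ Q⟩ t ms →
      (∀ x ∈ ms, ¬ T x) → ∃ o, SL N l1 s r1 o ∧ Cont N (l1.reverse ++ r1) P Q ms t o := by
  intro t
  induction t with
  | zero =>
    intro l1 s r1 P Q ms _ _ _ h _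
    cases h with
    | done hF => exact ⟨none, .acc hF, rfl⟩
  | succ t ih =>
    intro l1 s r1 P Q ms hr h1 h2 h hms
    cases h with
    | step hF hs hacc =>
      obtain ⟨x, r, rfl⟩ := List.exists_cons_of_ne_nil hr
      have hx : T x := h2 x (by simp)
      generalize hL : l1 ++ P = L at hs
      generalize hR : (x :: r) ++ Q = R at hs
      rw [List.cons_append] at hR
      cases hs with
      | @mvL l r' _ s' x' y hd =>
        obtain ⟨rfl, rfl⟩ := List.cons.inj hR
        cases l1 with
        | nil =>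
          refine ⟨_, .exL hF hd, t, by omega, y, l, hL, ?_⟩
          simpa using hacc
        | cons y' l1 =>
          rw [List.cons_append] at hL
          obtain ⟨rfl, rfl⟩ := List.cons.inj hL
          obtain ⟨o, h3, h4⟩ := ih l1 s' (y' :: x :: r) P Q _ (by simp)
            (fun z hz => h1 z (by simp [hz]))
            (by
              intro z hz
              rw [List.mem_cons] at hz
              rcases hz with rfl | hz
              · exact h1 z (by simp)
              · exact h2 z hz) hacc (by simpa using hms)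
          refine ⟨o, .goL hF hd h3, Cont.mono (Nat.le_succ t) ?_⟩
          simpa using h4
      | @mvR l r' _ s' x' hd =>
        obtain ⟨rfl, rfl⟩ := List.cons.inj hR
        subst hL
        cases r with
        | nil =>
          refine ⟨_, .exR hF hd, t, by omega, ?_⟩
          simpa using hacc
        | cons y r =>
          obtain ⟨o, h3, h4⟩ := ih (x :: l1) s' (y :: r) P Q _ (by simp)
            (by
              intro z hz
              rw [List.mem_cons] at hz
              rcases hz with rfl | hz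
              · exact hx
              · exact h1 z hz)
            (fun z hz => h2 z (by simp only [List.mem_cons] at hz ⊢; tauto))
            hacc (by simpa using hms)
          refine ⟨o, .goR hF hd h3, Cont.mono (Nat.le_succ t) ?_⟩
          simpa using h4
      | erL hd =>
        obtain ⟨rfl, rfl⟩ := List.cons.inj hR
        exact absurd hx (hms x (by simp [hT x hx]))
      | erR hd =>
        obtain ⟨rfl, rfl⟩ := List.cons.inj hR
        exact absurd hx (hms x (by simp [hT x hx]))
      | dlL hd =>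
        obtain ⟨rfl, rfl⟩ := List.cons.inj hR
        exact absurd hx (hms x (by simp))
      | dlR hd =>
        obtain ⟨rfl, rfl⟩ := List.cons.inj hR
        exact absurd hx (hms x (by simp))

theorem SL.to_acc {N : Forg A} {l1 r1 : List (Sym A)} {s : N.S} {o : Option (Bool × N.S)}
    (h : SL N l1 s r1 o) : ∀ (P Q ms : List (Sym A)) (B : ℕ),
      Cont N (l1.reverse ++ r1) P Q ms B o → ∃ t, Acc N ⟨l1 ++ P, s, r1 ++ Q⟩ t ms := by
  induction h with
  | acc hF =>
    rintro P Q ms B rfl
    exact ⟨0, .done hF⟩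
  | @exR l s s' x hF hd =>
    rintro P Q ms B ⟨t', _, h⟩
    have h' : Acc N ⟨x :: (l ++ P), s', Q⟩ t' ms := by simpa using h
    exact ⟨t' + 1, Acc.step (o := []) hF (Step.mvR hd) h'⟩
  | @exL r s s' x hF hd =>
    rintro P Q ms B ⟨t', _, p, P', rfl, h⟩
    have h' : Acc N ⟨P', s', p :: x :: (r ++ Q)⟩ t' ms := by simpa using h
    exact ⟨t' + 1, Acc.step (o := []) hF (Step.mvL hd) h'⟩
  | @goR l r s s' x y o hF hd _ ih =>
    intro P Q ms B hC
    obtain ⟨t, h⟩ := ih P Q ms B (by simpa using hC)
    exact ⟨t + 1, Acc.step (o := []) hF (Step.mvR hd) h⟩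
  | @goL l r s s' x y o hF hd _ ih =>
    intro P Q ms B hC
    obtain ⟨t, h⟩ := ih P Q ms B (by simpa using hC)
    exact ⟨t + 1, Acc.step (o := []) hF (Step.mvL hd) h⟩

/-- the behaviour of the part `y` of the list as long as it is not changed -/
def beta (N : Forg A) (y : List (Sym A)) : Set ((Bool × N.S) × Option (Bool × N.S)) :=
  {q | (q.1.1 = false ∧ SL N [] q.1.2 y q.2) ∨
    (q.1.1 = true ∧ ∃ z l, y.reverse = z :: l ∧ SL N l q.1.2 [z] q.2)}

theorem repl {N : Forg A} {T : Sym A → Prop} (hT : ∀ x, T x → lost x = [x])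
    {y y' : List (Sym A)} (hy : y ≠ []) (hyT : ∀ x ∈ y, T x)
    (hβ : beta N y ⊆ beta N y') : ∀ t : ℕ,
    (∀ (l : List (Sym A)) (s : N.S) (rP Q ms : List (Sym A)),
      Acc N ⟨l, s, rP ++ (y ++ Q)⟩ t ms → (∀ x ∈ ms, ¬ T x) →
      ∃ t', Acc N ⟨l, s, rP ++ (y' ++ Q)⟩ t' ms) ∧
    (∀ (lQ : List (Sym A)) (s : N.S) (r P ms : List (Sym A)),
      Acc N ⟨lQ ++ (y.reverse ++ P), s, r⟩ t ms → (∀ x ∈ ms, ¬ T x) →
      ∃ t', Acc N ⟨lQ ++ (y'.reverse ++ P), s, r⟩ t' ms) := by
  intro t
  induction t using Nat.strong_induction_on with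
  | _ t IH =>
    have hcont : ∀ (P Q ms : List (Sym A)) (B : ℕ) (o : Option (Bool × N.S)), B ≤ t →
        (∀ x ∈ ms, ¬ T x) → Cont N y P Q ms B o → ∃ B', Cont N y' P Q ms B' o := by
      intro P Q ms B o hB hms hC
      match o, hC with
      | none, h => exact ⟨0, h⟩
      | some (true, s'), ⟨t', ht', h⟩ =>
        obtain ⟨t'', h''⟩ := (IH t' (by omega)).2 [] s' Q P ms (by simpa using h) hms
        exact ⟨t'' + 1, t'', by omega, by simpa using h''⟩
      | some (false, s'), ⟨t', ht', p, P', hP, h⟩ =>
        obtain ⟨t'', h''⟩ := (IH t' (by omega)).1 P' s' [p] Q ms (by simpa using h) hms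
        exact ⟨t'' + 1, t'', by omega, p, P', hP, by simpa using h''⟩
    constructor
    · intro l s rP Q ms h hms
      cases rP with
      | nil =>
        obtain ⟨o, h1, h2⟩ := SL.of_acc hT t [] s y l Q ms hy (by simp) hyT (by simpa using h) hms
        have h3 : ((false, s), o) ∈ beta N y := Or.inl ⟨rfl, h1⟩
        have h4 := hβ h3
        have h5 : SL N [] s y' o := by
          rcases h4 with h4 | h4
          · exact h4.2
          · simp at h4
        obtain ⟨B', h6⟩ := hcont l Q ms t o le_rfl hms (by simpa using h2)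
        obtain ⟨t', h7⟩ := h5.to_acc l Q ms B' (by simpa using h6)
        exact ⟨t', by simpa using h7⟩
      | cons x rP =>
        rw [List.cons_append] at h ⊢
        cases h with
        | done hF => exact ⟨0, .done hF⟩
        | @step _ c' o ms' t hF hs hacc =>
          obtain ⟨d, h1, rfl⟩ := step_right.mp hs
          obtain ⟨t', h2⟩ := (IH t (by omega)).1 d.left d.st d.right Q ms' hacc
            (fun z hz => hms z (List.mem_append_right _ hz))
          exact ⟨t' + 1, .step hF (step_right.mpr ⟨d, h1, rfl⟩) h2⟩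
    · intro lQ s r P ms h hms
      cases h with
      | done hF => exact ⟨0, .done hF⟩
      | @step _ c' o ms' t hF hs hacc =>
        have hms' : ∀ z ∈ ms', ¬ T z := fun z hz => hms z (List.mem_append_right _ hz)
        obtain ⟨x, r', s', p, h1, h2, h3⟩ := step_iff.mp hs
        simp only at h1 h2 h3
        subst h1
        rcases act_cases s' x r' p with ⟨r'', o', ha, hn⟩ | ⟨pre, r'', o', ha⟩
        · cases lQ with
          | nil =>
            obtain ⟨z, ly, hz⟩ := List.exists_cons_of_ne_nil
              (show y.reverse ≠ [] by simpa using hy)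
            rw [hz, List.nil_append, List.cons_append, ha] at h3
            obtain ⟨rfl, rfl⟩ := Prod.mk.inj (Option.some.inj h3)
            have hyz : ly.reverse ++ [z] = y := by
              rw [← List.reverse_reverse y, hz, List.reverse_cons]
            have hzT : ∀ w ∈ z :: ly, T w := fun w hw => hyT w (by
              rw [← hz] at hw; simpa using hw)
            obtain ⟨o, h4, h5⟩ := SL.of_acc hT t ly s' [z] P r'' ms' (by simp)
              (fun w hw => hzT w (by simp [hw])) (fun w hw => hzT w (by simp at hw; simp [hw]))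
              (by simpa using hacc) hms'
            rw [hyz] at h5
            have h6 : ((true, s'), o) ∈ beta N y := Or.inr ⟨rfl, z, ly, hz, h4⟩
            rcases hβ h6 with h7 | ⟨_, z', ly', hz', h7⟩
            · simp at h7
            · obtain ⟨B', h8⟩ := hcont P r'' ms' t o (by omega) hms' h5
              have hyz' : ly'.reverse ++ [z'] = y' := by
                rw [← List.reverse_reverse y', hz', List.reverse_cons]
              obtain ⟨t', h9⟩ := h7.to_acc P r'' ms' B' (by rw [hyz']; exact h8)
              refine ⟨t' + 1, .step hF (step_iff.mpr ⟨x, r', s', p, rfl, h2, ?_⟩) h9⟩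
              change act s' x r' p ([] ++ (y'.reverse ++ P)) = _
              rw [hz', List.nil_append, List.cons_append, ha]
              rfl
          | cons z lQ =>
            rw [List.cons_append, ha] at h3
            obtain ⟨rfl, rfl⟩ := Prod.mk.inj (Option.some.inj h3)
            obtain ⟨t', h4⟩ := (IH t (by omega)).2 lQ s' (z :: r'') P ms' hacc hms'
            refine ⟨t' + 1, .step hF (step_iff.mpr ⟨x, r', s', p, rfl, h2, ?_⟩) h4⟩
            change act s' x r' p ((z :: lQ) ++ (y'.reverse ++ P)) = _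
            rw [List.cons_append, ha]
        · rw [ha] at h3
          obtain ⟨rfl, rfl⟩ := Prod.mk.inj (Option.some.inj h3)
          obtain ⟨t', h4⟩ := (IH t (by omega)).2 (pre ++ lQ) s' r'' P ms'
            (by simpa using hacc) hms'
          refine ⟨t' + 1, .step hF (step_iff.mpr ⟨x, r', s', p, rfl, h2, ha _⟩) ?_⟩
          simpa using h4

end Pool.Agent.Lib.MP_e11118_lc
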