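import Pool.Agent.Lib.MP_e11118_lc.Tag
import Pool.Agent.Lib.MP_e11118_lc.Repl

/-! Cutting out a part of the input which is never changed. -/

set_option autoImplicit false

namespace Pool.Agent.Lib.MP_e11118_lc

variable {A : Type}

/-- the number of possible behaviours of a part of the list, plus one -/
noncomputable def Forg.bd (M : Forg A) : ℕ :=
  Nat.card (Set ((Bool × M.S) × Option (Bool × M.S))) + 1

/-- block number of a tagged letter -/
def blk (B : ℕ) : Sym (A × ℕ) → ℕ
  | Sym.letter a => a.2 / B
  | _ => 0

theorem untagC_init (M : Forg A) (w : List (A × ℕ)) :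
    untagC (S := M.S) ((M.tag ℕ).init w) = M.init (w.map Prod.fst) := by
  simp only [untagC, Forg.init, List.map_nil, List.map_cons, List.map_append, List.map_map]
  rfl

theorem blk_zipIdx (w : List A) (B j : ℕ) (hB : 0 < B) :
    ∀ p ∈ (w.zipIdx.drop (j * B)).take B, p.2 / B = j := by
  intro p hp
  obtain ⟨k, hk, rfl⟩ := List.mem_iff_getElem.mp hp
  have hk' : k < B := by
    rw [List.length_take] at hk
    omega
  rw [List.getElem_take, List.getElem_drop, List.getElem_zipIdx]
  simp only [zero_add]
  rw [Nat.mul_comm, Nat.mul_add_div hB, Nat.div_eq_of_lt hk', add_zero]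

theorem cut {M : Forg A} {w : List A} {t : ℕ} {ms : List (Sym A)}
    (h : Acc M (M.init w) t ms) (hlen : (ms.length + 1) * M.bd ≤ w.length) :
    ∃ w' t' ms', w'.length < w.length ∧ Acc M (M.init w') t' ms' ∧ ms'.length = ms.length := by
  classical
  have hS : Finite M.S := M.fin
  set B := M.bd with hBdef
  have hB : 0 < B := Nat.succ_pos _
  -- tag the input
  have h0 : untagC (S := M.S) ((M.tag ℕ).init w.zipIdx) = M.init w := by
    rw [untagC_init, List.zipIdx_map_fst]
  obtain ⟨ms', hacc, hms⟩ := h.lift (τ := ℕ) _ h0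
  -- an untouched block
  have hcard : ((ms'.map (blk B)).toFinset).card < (Finset.range (ms.length + 1)).card := by
    rw [Finset.card_range]
    have h1 := List.toFinset_card_le (ms'.map (blk B))
    rw [List.length_map] at h1
    have h2 : ms'.length = ms.length := by rw [← hms, List.length_map]
    omega
  obtain ⟨j, hj, hj'⟩ := Finset.exists_mem_notMem_of_card_lt_card hcard
  rw [Finset.mem_range] at hj
  let T : Sym (A × ℕ) → Prop := fun x => ∃ a : A × ℕ, x = Sym.letter a ∧ a.2 / B = j
  have hT : ∀ x, T x → lost x = [x] := by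
    rintro _ ⟨a, rfl, _⟩
    rfl
  have hmsT : ∀ x ∈ ms', ¬ T x := by
    rintro _ hx ⟨a, rfl, ha⟩
    exact hj' (List.mem_toFinset.mpr (List.mem_map.mpr ⟨_, hx, ha⟩))
  set wz := w.zipIdx with hwz
  set rest := wz.drop (j * B) with hrest
  have hwl : wz.length = w.length := List.length_zipIdx
  have hrl : B ≤ rest.length := by
    rw [hrest, List.length_drop, hwl]
    have h1 : (j + 1) * B ≤ (ms.length + 1) * B := Nat.mul_le_mul_right B (by omega)
    have h2 : (j + 1) * B = j * B + B := by ring
    omega
  have hrT : ∀ p ∈ rest.take B, p.2 / B = j := blk_zipIdx w B j hB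
  -- two prefixes with the same behaviour
  obtain ⟨i, k, hik, hβ⟩ : ∃ i k : Fin B, i < k ∧
      beta (M.tag ℕ) ((rest.take (i + 1)).map Sym.letter) =
        beta (M.tag ℕ) ((rest.take (k + 1)).map Sym.letter) := by
    have hfin : Finite (M.tag ℕ).S := M.fin
    let g : Fin B → Set ((Bool × (M.tag ℕ).S) × Option (Bool × (M.tag ℕ).S)) := fun i =>
      beta (M.tag ℕ) ((rest.take (i + 1)).map Sym.letter)
    have hni : ¬ Function.Injective g := by
      intro hinj
      have h1 := Nat.card_le_card_of_injective g hinj
      rw [Nat.card_fin] at h1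
      have h2 : B = Nat.card (Set ((Bool × (M.tag ℕ).S) × Option (Bool × (M.tag ℕ).S))) + 1 := rfl
      omega
    unfold Function.Injective at hni
    push Not at hni
    obtain ⟨i, k, h1, h2⟩ := hni
    rcases lt_or_gt_of_ne h2 with h3 | h3
    · exact ⟨i, k, h3, h1⟩
    · exact ⟨k, i, h3, h1.symm⟩
  have hkB : (k : ℕ) + 1 ≤ B := k.isLt
  have hiB : (i : ℕ) < k := hik
  set y := (rest.take (k + 1)).map (Sym.letter (A := A × ℕ)) with hy
  set y' := (rest.take (i + 1)).map (Sym.letter (A := A × ℕ)) with hy'
  have hy0 : y ≠ [] := by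
    intro h1
    have := congrArg List.length h1
    rw [hy, List.length_map, List.length_take, List.length_nil] at this
    omega
  have hyT : ∀ x ∈ y, T x := by
    intro x hx
    rw [hy, List.mem_map] at hx
    obtain ⟨a, ha, rfl⟩ := hx
    refine ⟨a, rfl, hrT a ?_⟩
    exact (List.take_subset_take_left rest hkB) ha
  have hsplit : wz = wz.take (j * B) ++ (rest.take (k + 1) ++ rest.drop (k + 1)) := by
    rw [List.take_append_drop, hrest, List.take_append_drop]
  have hinit : (M.tag ℕ).init wz = ⟨[], M.start, (Sym.lend :: (wz.take (j * B)).map Sym.letter) ++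
      (y ++ ((rest.drop (k + 1)).map Sym.letter ++ [Sym.rend]))⟩ := by
    conv_lhs => rw [hsplit]
    simp only [Forg.init, Forg.tag, hy, List.map_append, List.append_assoc, List.cons_append]
  rw [hinit] at hacc
  obtain ⟨t', hacc'⟩ := (repl hT hy0 hyT hβ.symm.subset t).1 _ _ _ _ _ hacc hmsT
  set w' := wz.take (j * B) ++ (rest.take (i + 1) ++ rest.drop (k + 1)) with hw'
  have hinit' : (M.tag ℕ).init w' = ⟨[], M.start, (Sym.lend :: (wz.take (j * B)).map Sym.letter) ++
      (y' ++ ((rest.drop (k + 1)).map Sym.letter ++ [Sym.rend]))⟩ := by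
    simp only [Forg.init, Forg.tag, hy', hw', List.map_append, List.append_assoc,
      List.cons_append]
  rw [← hinit'] at hacc'
  have h3 := hacc'.proj
  rw [untagC_init] at h3
  refine ⟨w'.map Prod.fst, t', _, ?_, h3, ?_⟩
  · have h4 : rest.length = w.length - j * B := by rw [hrest, List.length_drop, hwl]
    have h5 : (wz.take (j * B)).length = min (j * B) w.length := by rw [List.length_take, hwl]
    have h6 : (rest.take ((i : ℕ) + 1)).length = min ((i : ℕ) + 1) rest.length := List.length_take
    have h7 : (rest.drop ((k : ℕ) + 1)).length = rest.length - ((k : ℕ) + 1) := List.length_drop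
    rw [List.length_map, hw', List.length_append, List.length_append, h5, h6, h7]
    omega
  · rw [hms]

end Pool.Agent.Lib.MP_e11118_lc
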