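import Mathlib

/-! Forgetting automata (MP_e11118_lc): definitions. -/

set_option autoImplicit false

namespace Pool.Agent.Lib.MP_e11118_lc

/-- The six operations: move, erase, delete, each to the left or to the right. -/
inductive Op
  | mvL | mvR | erL | erR | dlL | dlR

/-- The symbols on the list: left sentinel, right sentinel, blank, letters. -/
inductive Sym (A : Type)
  | lend | rend | blank | letter (a : A)

/-- A forgetting automaton over the input alphabet `A`. On the left (right) sentinel it can only
move right (left). -/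
structure Forg (A : Type) where
  S : Type
  fin : Finite S
  δ : S → Sym A → Set (S × Op)
  start : S
  F : Set S
  on_lend : ∀ s p, p ∈ δ s Sym.lend → p.2 = Op.mvR
  on_rend : ∀ s p, p ∈ δ s Sym.rend → p.2 = Op.mvL

/-- `O` contains all the operations used on fields other than the sentinels. -/
def Forg.Uses {A : Type} (M : Forg A) (O : Set Op) : Prop :=
  ∀ s x p, p ∈ M.δ s x → x ≠ Sym.lend → x ≠ Sym.rend → p.2 ∈ O

/-- `M` is deterministic. -/
def Forg.Det {A : Type} (M : Forg A) : Prop := ∀ s x, (M.δ s x).Subsingleton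

/-- `⟨l, s, r⟩` is the configuration `w₁ s w₂`, where `w₁` is the reverse of `l` and `w₂ = r`:
the state is `s` and the head is on the first symbol of `r`. -/
structure Conf (A S : Type) where
  left : List (Sym A)
  st : S
  right : List (Sym A)

/-- The symbol which is lost when a field with the symbol `x` is erased: none if it was blank. -/
def lost {A : Type} : Sym A → List (Sym A)
  | Sym.blank => []
  | x => [x]

/-- One step of `M`. The last argument lists the symbol which the step changes or removes from the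
list: it is empty if the step does not change the list. -/
inductive Step {A : Type} (M : Forg A) : Conf A M.S → Conf A M.S → List (Sym A) → Prop
  | mvL {l r : List (Sym A)} {s s' : M.S} {x y : Sym A} : (s', Op.mvL) ∈ M.δ s x →
      Step M ⟨y :: l, s, x :: r⟩ ⟨l, s', y :: x :: r⟩ []
  | mvR {l r : List (Sym A)} {s s' : M.S} {x : Sym A} : (s', Op.mvR) ∈ M.δ s x →
      Step M ⟨l, s, x :: r⟩ ⟨x :: l, s', r⟩ []
  | erL {l r : List (Sym A)} {s s' : M.S} {x y : Sym A} : (s', Op.erL) ∈ M.δ s x →
      Step M ⟨y :: l, s, x :: r⟩ ⟨l, s', y :: Sym.blank :: r⟩ (lost x)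
  | erR {l r : List (Sym A)} {s s' : M.S} {x : Sym A} : (s', Op.erR) ∈ M.δ s x →
      Step M ⟨l, s, x :: r⟩ ⟨Sym.blank :: l, s', r⟩ (lost x)
  | dlL {l r : List (Sym A)} {s s' : M.S} {x y : Sym A} : (s', Op.dlL) ∈ M.δ s x →
      Step M ⟨y :: l, s, x :: r⟩ ⟨l, s', y :: r⟩ [x]
  | dlR {l r : List (Sym A)} {s s' : M.S} {x : Sym A} : (s', Op.dlR) ∈ M.δ s x →
      Step M ⟨l, s, x :: r⟩ ⟨l, s', r⟩ [x]

/-- `Run M c c' t ms`: `M` passes from `c` to `c'` in `t` steps, and `ms` lists the symbols
changed or removed by these steps. -/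
inductive Run {A : Type} (M : Forg A) : Conf A M.S → Conf A M.S → ℕ → List (Sym A) → Prop
  | refl (c : Conf A M.S) : Run M c c 0 []
  | step {c c' c'' : Conf A M.S} {o ms : List (Sym A)} {t : ℕ} : Step M c c' o →
      Run M c' c'' t ms → Run M c c'' (t + 1) (o ++ ms)

/-- The initial configuration `s₀ ▷ w ◁`. -/
def Forg.init {A : Type} (M : Forg A) (w : List A) : Conf A M.S :=
  ⟨[], M.start, Sym.lend :: (w.map Sym.letter ++ [Sym.rend])⟩

/-- The language accepted by `M`. -/
def Forg.lang {A : Type} (M : Forg A) : Language A :=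
  {w | ∃ c t ms, Run M (M.init w) c t ms ∧ c.st ∈ M.F}

/-- `M` accepts `w` after at most `m` steps which change the list. -/
def Forg.AcceptsChanges {A : Type} (M : Forg A) (w : List A) (m : ℕ) : Prop :=
  ∃ c t ms, Run M (M.init w) c t ms ∧ c.st ∈ M.F ∧ ms.length ≤ m

/-- `M` accepts `w` after at most `T` steps. -/
def Forg.AcceptsTime {A : Type} (M : Forg A) (w : List A) (T : ℕ) : Prop :=
  ∃ c t ms, Run M (M.init w) c t ms ∧ c.st ∈ M.F ∧ t ≤ T

/-- The moves and erasures. -/
def MVER : Set Op := {Op.mvL, Op.mvR, Op.erL, Op.erR}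

/-- All six operations. -/
def MVERDL : Set Op := Set.univ

end Pool.Agent.Lib.MP_e11118_lc
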