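import Pool.Agent.Lib.MP_e11118_lc.Reg
import Pool.Agent.Lib.MP_e11118_lc.Bound

/-! Regular languages are accepted without changes. -/

set_option autoImplicit false

namespace Pool.Agent.Lib.MP_e11118_lc

variable {A : Type}

theorem Acc.cases' {M : Forg A} {c : Conf A M.S} {t : ℕ} {ms : List (Sym A)}
    (h : Acc M c t ms) (hF : c.st ∉ M.F) : ∃ c' o t' ms', Step M c c' o ∧ Acc M c' t' ms' := by
  cases h with
  | done h => exact absurd h hF
  | step _ hs hacc => exact ⟨_, _, _, _, hs, hacc⟩

/-- the transition function of the simulation of a finite automaton -/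
def dfaδ {σ : Type} (D : DFA A σ) : Option σ → Sym A → Set (Option σ × Op)
  | some q, Sym.lend => {(some q, Op.mvR)}
  | some q, Sym.letter a => {(some (D.step q a), Op.mvR)}
  | some q, Sym.rend => {p | q ∈ D.accept ∧ p = (none, Op.mvL)}
  | _, _ => ∅

/-- the simulation of a finite automaton -/
def ofDFA {σ : Type} [Finite σ] (D : DFA A σ) : Forg A where
  S := Option σ
  fin := inferInstance
  δ := dfaδ D
  start := some D.start
  F := {none}
  on_lend := by
    rintro (_ | q) p h
    · exact absurd h (by simp [dfaδ])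
    · have h' : p = (some q, Op.mvR) := h
      rw [h']
  on_rend := by
    rintro (_ | q) p h
    · exact absurd h (by simp [dfaδ])
    · have h' : p = (none, Op.mvL) := h.2
      rw [h']

theorem ofDFA_det {σ : Type} [Finite σ] (D : DFA A σ) : (ofDFA D).Det := by
  rintro (_ | q) (_ | _ | _ | a) p hp p' hp'
  · exact absurd hp (Set.notMem_empty p)
  · exact absurd hp (Set.notMem_empty p)
  · exact absurd hp (Set.notMem_empty p)
  · exact absurd hp (Set.notMem_empty p)
  · have h1 : p = (some q, Op.mvR) := hp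
    have h2 : p' = (some q, Op.mvR) := hp'
    rw [h1, h2]
  · have h1 : p = (none, Op.mvL) := hp.2
    have h2 : p' = (none, Op.mvL) := hp'.2
    rw [h1, h2]
  · exact absurd hp (Set.notMem_empty p)
  · have h1 : p = (some (D.step q a), Op.mvR) := hp
    have h2 : p' = (some (D.step q a), Op.mvR) := hp'
    rw [h1, h2]

theorem ofDFA_uses {σ : Type} [Finite σ] (D : DFA A σ) {O : Set Op} (hO : Op.mvR ∈ O) :
    (ofDFA D).Uses O := by
  rintro (_ | q) (_ | _ | _ | a) p hp h1 h2
  · exact absurd rfl h1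
  · exact absurd rfl h2
  · exact absurd hp (Set.notMem_empty p)
  · exact absurd hp (Set.notMem_empty p)
  · exact absurd rfl h1
  · exact absurd rfl h2
  · exact absurd hp (Set.notMem_empty p)
  · have h1 : p = (some (D.step q a), Op.mvR) := hp
    rw [h1]
    exact hO

theorem ofDFA_F {σ : Type} [Finite σ] (D : DFA A σ) (q : σ) :
    (some q : (ofDFA D).S) ∉ (ofDFA D).F := fun h => Option.some_ne_none q h

theorem ofDFA_acc {σ : Type} [Finite σ] (D : DFA A σ) (w : List A) :
    ∀ (q : σ) (z : Sym A) (l : List (Sym A)),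
      (D.evalFrom q w ∈ D.accept → ∃ t, Acc (ofDFA D)
        (⟨z :: l, some q, w.map Sym.letter ++ [Sym.rend]⟩ : Conf A (Option σ)) t []) ∧
      ∀ t ms, Acc (ofDFA D)
        (⟨z :: l, some q, w.map Sym.letter ++ [Sym.rend]⟩ : Conf A (Option σ)) t ms →
        D.evalFrom q w ∈ D.accept := by
  induction w with
  | nil =>
    intro q z l
    constructor
    · intro h
      have h1 : ((none : Option σ), Op.mvL) ∈ (ofDFA D).δ (some q) Sym.rend := ⟨h, rfl⟩
      have h2 := ofDFA_F D q
      exact ⟨1, Acc.step (o := []) h2 (Step.mvL h1) (.done rfl)⟩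
    · intro t ms h
      obtain ⟨c', o, t', ms', hs, _⟩ := Acc.cases' h (ofDFA_F D q)
      obtain ⟨x, r, s', p, h1, h2, h3⟩ := step_iff.mp hs
      simp only [List.map_nil, List.nil_append, List.cons.injEq] at h1
      obtain ⟨rfl, rfl⟩ := h1
      exact h2.1
  | cons a w ih =>
    intro q z l
    constructor
    · intro h
      obtain ⟨t, ht⟩ := (ih (D.step q a) (Sym.letter a) (z :: l)).1 h
      have h1 : ((some (D.step q a) : Option σ), Op.mvR) ∈
          (ofDFA D).δ (some q) (Sym.letter a) := rfl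
      have h2 := ofDFA_F D q
      exact ⟨t + 1, Acc.step (o := []) h2 (Step.mvR h1) ht⟩
    · intro t ms h
      obtain ⟨c', o, t', ms', hs, hacc⟩ := Acc.cases' h (ofDFA_F D q)
      obtain ⟨x, r, s', p, h1, h2, h3⟩ := step_iff.mp hs
      simp only [List.map_cons, List.cons_append, List.cons.injEq] at h1
      obtain ⟨rfl, rfl⟩ := h1
      have h2' : (s', p) = (some (D.step q a), Op.mvR) := h2
      obtain ⟨rfl, rfl⟩ := Prod.mk.inj h2'
      simp only [act, Option.some.injEq, Prod.mk.injEq] at h3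
      obtain ⟨rfl, rfl⟩ := h3
      exact (ih (D.step q a) (Sym.letter a) (z :: l)).2 _ _ hacc

theorem ofDFA_init {σ : Type} [Finite σ] (D : DFA A σ) (w : List A) :
    (w ∈ D.accepts → ∃ t, Acc (ofDFA D) ((ofDFA D).init w) t []) ∧
      ∀ t ms, Acc (ofDFA D) ((ofDFA D).init w) t ms → w ∈ D.accepts := by
  have h1 : ((some D.start : Option σ), Op.mvR) ∈ (ofDFA D).δ (some D.start) Sym.lend := rfl
  have h2 := ofDFA_F D D.start
  constructor
  · intro h
    obtain ⟨t, ht⟩ := (ofDFA_acc D w D.start Sym.lend []).1 h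
    exact ⟨t + 1, Acc.step (o := []) h2 (Step.mvR h1) ht⟩
  · intro t ms h
    obtain ⟨c', o, t', ms', hs, hacc⟩ := Acc.cases' h h2
    obtain ⟨x, r, s', p, h3, h4, h5⟩ := step_iff.mp hs
    simp only [Forg.init, List.cons.injEq] at h3
    obtain ⟨rfl, rfl⟩ := h3
    have h4' : (s', p) = (some D.start, Op.mvR) := h4
    obtain ⟨rfl, rfl⟩ := Prod.mk.inj h4'
    simp only [Forg.init, act, Option.some.injEq, Prod.mk.injEq] at h5
    obtain ⟨rfl, rfl⟩ := h5
    exact (ofDFA_acc D w D.start Sym.lend []).2 _ _ hacc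

/-- Every regular language is accepted deterministically without any change of the list. -/
theorem exists_of_regular {L : Language A} (hL : L.IsRegular) {O : Set Op} (hO : Op.mvR ∈ O) :
    ∃ M : Forg A, M.Uses O ∧ M.Det ∧ M.lang = L ∧ ∀ w ∈ L, M.AcceptsChanges w 0 := by
  obtain ⟨σ, _, D, rfl⟩ := hL
  refine ⟨ofDFA D, ofDFA_uses D hO, ofDFA_det D, ?_, ?_⟩
  · ext w
    constructor
    · intro h
      obtain ⟨t, ms, h1⟩ := mem_lang_iff.mp h
      exact (ofDFA_init D w).2 t ms h1
    · intro h
      obtain ⟨t, h1⟩ := (ofDFA_init D w).1 h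
      exact mem_lang_iff.mpr ⟨t, [], h1⟩
  · intro w h
    obtain ⟨t, h1⟩ := (ofDFA_init D w).1 h
    exact acceptsChanges_iff.mpr ⟨t, [], h1, le_rfl⟩

/-- The gap: few changes on long accepted words imply regularity. -/
theorem regular_of_few {M : Forg A} (hM : M.Det) {n₀ : ℕ}
    (h : ∀ w ∈ M.lang, n₀ ≤ w.length → M.AcceptsChanges w (w.length / (2 * M.bd))) :
    M.lang.IsRegular := by
  obtain ⟨C, hC⟩ := bounded_of_sublinear hM h
  have h1 : M.lang = ({w | M.AcceptsChanges w C} : Set (List A)) := by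
    ext w
    constructor
    · exact hC w
    · intro hw
      obtain ⟨t, ms, h1, _⟩ := acceptsChanges_iff.mp hw
      exact mem_lang_iff.mpr ⟨t, ms, h1⟩
  rw [h1]
  exact regular_of_bounded M C

end Pool.Agent.Lib.MP_e11118_lc
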