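import Pool.Agent.Lib.MP_e11118_lc.Repl

/-! A bounded number of changes: the language is regular. -/

set_option autoImplicit false

namespace Pool.Agent.Lib.MP_e11118_lc

variable {A : Type}

/-- the computation inside the left part of the list, with the number of changes -/
inductive LV (M : Forg A) :
    List (Sym A) → M.S → List (Sym A) → Option (M.S × List (Sym A)) → ℕ → Prop
  | acc {l r : List (Sym A)} {s : M.S} : s ∈ M.F → LV M l s r none 0
  | exit {l r l' o : List (Sym A)} {s s' : M.S} : s ∉ M.F → Step M ⟨l, s, r⟩ ⟨l', s', []⟩ o →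
      LV M l s r (some (s', l')) o.length
  | go {l r l' r' o : List (Sym A)} {s s' : M.S} {x : Sym A}
      {res : Option (M.S × List (Sym A))} {m : ℕ} : s ∉ M.F →
      Step M ⟨l, s, r⟩ ⟨l', s', x :: r'⟩ o → LV M l' s' (x :: r') res m →
      LV M l s r res (o.length + m)

/-- what happens after the computation inside the left part -/
def Rest (M : Forg A) (Q : List (Sym A)) (m k B : ℕ) : Option (M.S × List (Sym A)) → Prop
  | none => k = m
  | some (s', l') => ∃ t' < B, ∃ ms', Acc M ⟨l', s', Q⟩ t' ms' ∧ k = m + ms'.length

theorem Rest.mono {M : Forg A} {Q : List (Sym A)} {m k B B' a : ℕ} (h : B ≤ B') :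
    ∀ {o : Option (M.S × List (Sym A))}, Rest M Q m k B o → Rest M Q (a + m) (a + k) B' o
  | none, h' => by
    change a + k = a + m
    have : k = m := h'
    rw [this]
  | some (s', l'), ⟨t', h1, ms', h2, h3⟩ => ⟨t', by omega, ms', h2, by omega⟩

theorem step_ne_nil {M : Forg A} {l r o : List (Sym A)} {s : M.S} {c' : Conf A M.S}
    (h : Step M ⟨l, s, r⟩ c' o) : ∃ x r', r = x :: r' := by
  obtain ⟨x, r', _, _, h1, _, _⟩ := step_iff.mp h
  exact ⟨x, r', h1⟩

theorem LV.of_acc {M : Forg A} : ∀ (t : ℕ) (l : List (Sym A)) (s : M.S) (r Q ms : List (Sym A)),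
    r ≠ [] → Acc M ⟨l, s, r ++ Q⟩ t ms →
      ∃ res m, LV M l s r res m ∧ Rest M Q m ms.length t res := by
  intro t
  induction t with
  | zero =>
    intro l s r Q ms _ h
    cases h with
    | done hF => exact ⟨none, 0, .acc hF, rfl⟩
  | succ t ih =>
    intro l s r Q ms hr h
    obtain ⟨x, r, rfl⟩ := List.exists_cons_of_ne_nil hr
    rw [List.cons_append] at h
    cases h with
    | @step _ c' o ms' _ hF hs hacc =>
      obtain ⟨⟨l', s', r'⟩, h1, rfl⟩ := step_right.mp hs
      cases r' with
      | nil =>
        refine ⟨_, _, .exit hF h1, t, by omega, ms', by simpa using hacc, ?_⟩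
        rw [List.length_append]
      | cons y r' =>
        obtain ⟨res, m, h2, h3⟩ := ih l' s' (y :: r') Q ms' (by simp) hacc
        refine ⟨res, _, .go hF h1 h2, ?_⟩
        rw [List.length_append]
        exact h3.mono (Nat.le_succ t)

theorem LV.to_acc {M : Forg A} {l r : List (Sym A)} {s : M.S}
    {res : Option (M.S × List (Sym A))} {m : ℕ} (h : LV M l s r res m) :
    ∀ (Q : List (Sym A)) (k B : ℕ), Rest M Q m k B res →
      ∃ t ms, Acc M ⟨l, s, r ++ Q⟩ t ms ∧ ms.length = k := by
  induction h with
  | acc hF =>
    intro Q k B hk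
    have hk' : k = 0 := hk
    exact ⟨0, [], .done hF, hk'.symm⟩
  | @exit l r l' o s s' hF hs =>
    rintro Q k B ⟨t', _, ms', h1, h2⟩
    obtain ⟨x, r', rfl⟩ := step_ne_nil hs
    refine ⟨t' + 1, o ++ ms', .step hF (step_right.mpr ⟨_, hs, rfl⟩) (by simpa using h1), ?_⟩
    rw [List.length_append, h2]
  | @go l r l' r' o s s' x res m hF hs _ ih =>
    intro Q k B hk
    obtain ⟨y, r'', rfl⟩ := step_ne_nil hs
    have hk' : ∃ k', k = o.length + k' ∧ Rest M Q m k' B res := by
      match res, hk with
      | none, hk => exact ⟨m, hk, rfl⟩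
      | some (s', l'), ⟨t', h1, ms', h2, h3⟩ =>
        exact ⟨m + ms'.length, by omega, t', h1, ms', h2, rfl⟩
    obtain ⟨k', rfl, hk'⟩ := hk'
    obtain ⟨t', ms', h1, h2⟩ := ih Q k' B hk'
    refine ⟨t' + 1, o ++ ms', .step hF (step_right.mpr ⟨_, hs, rfl⟩) h1, ?_⟩
    rw [List.length_append, h2]

/-- a step without changes keeps the list -/
theorem Step.content {M : Forg A} {c c' : Conf A M.S} {o : List (Sym A)} (h : Step M c c' o)
    (ho : o = []) : c'.left.reverse ++ c'.right = c.left.reverse ++ c.right := by
  cases h with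
  | mvL hd => simp
  | mvR hd => simp
  | @erL l r s s' x y hd =>
    cases x <;> simp [lost] at ho ⊢
  | @erR l r s s' x hd =>
    cases x <;> simp [lost] at ho ⊢
  | dlL hd => simp at ho
  | dlR hd => simp at ho

theorem LV.content {M : Forg A} {l r : List (Sym A)} {s : M.S}
    {res : Option (M.S × List (Sym A))} {m : ℕ} (h : LV M l s r res m) (hm : m = 0) :
    ∀ s' l', res = some (s', l') → l' = r.reverse ++ l := by
  induction h with
  | acc hF => intro s' l' h; cases h
  | @exit l r l' o s s' hF hs =>
    rintro s'' l'' h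
    obtain ⟨rfl, rfl⟩ := Prod.mk.inj (Option.some.inj h)
    have h1 := hs.content (List.eq_nil_of_length_eq_zero hm)
    have h2 := congrArg List.reverse h1
    simpa using h2
  | @go l r l' r' o s s' x res m hF hs _ ih =>
    rintro s'' l'' h
    have h1 := ih (by omega) s'' l'' h
    have h2 := hs.content (List.eq_nil_of_length_eq_zero (by omega))
    have h3 := congrArg List.reverse h2
    simp only [List.reverse_append, List.reverse_reverse] at h3
    rw [h1, h3]

/-- the possible futures of a left part, with at most `k` changes -/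
def fut (M : Forg A) (k : ℕ) (X : List (Sym A)) : Set (ℕ × M.S × List (Sym A)) :=
  {q | q.1 ≤ k ∧ ∃ t ms, Acc M ⟨X, q.2.1, q.2.2⟩ t ms ∧ ms.length = q.1}

theorem fut_mono {M : Forg A} {k j : ℕ} (h : j ≤ k) {X X' : List (Sym A)}
    (hX : fut M k X ⊆ fut M k X') : fut M j X ⊆ fut M j X' := by
  rintro q ⟨h1, h2⟩
  exact ⟨h1, (hX (show q ∈ fut M k X from ⟨h1.trans h, h2⟩)).2⟩

/-- the code of a left part after a visit -/
def code (M : Forg A) (k m : ℕ) (X : List (Sym A)) : Set (ℕ × M.S × List (Sym A)) :=
  if m = 0 then ∅ else fut M (k - m) X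

/-- the possible visits of a left part -/
def vis (M : Forg A) (k : ℕ) (X : List (Sym A)) :
    Set (M.S × ℕ × Option (M.S × Set (ℕ × M.S × List (Sym A)))) :=
  {q | q.2.1 ≤ k ∧ ∃ z l res, X = z :: l ∧ LV M l q.1 [z] res q.2.1 ∧
    q.2.2 = res.map fun p => (p.1, code M k q.2.1 p.2)}

theorem fut_of_vis {M : Forg A} {k : ℕ} {X X' : List (Sym A)} (h : vis M k X ⊆ vis M k X') :
    ∀ (t : ℕ) (lQ : List (Sym A)) (s : M.S) (r ms : List (Sym A)),
      Acc M ⟨lQ ++ X, s, r⟩ t ms → ms.length ≤ k →
      ∃ t' ms', Acc M ⟨lQ ++ X', s, r⟩ t' ms' ∧ ms'.length = ms.length := by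
  intro t
  induction t using Nat.strong_induction_on with
  | _ t IH =>
    intro lQ s r ms hacc hms
    cases hacc with
    | done hF => exact ⟨0, [], .done hF, rfl⟩
    | @step _ c' o ms₁ t hF hs hacc =>
      rw [List.length_append] at hms
      obtain ⟨x, r', s', p, h1, h2, h3⟩ := step_iff.mp hs
      simp only at h1 h2 h3
      subst h1
      rcases act_cases s' x r' p with ⟨r'', o', ha, hn⟩ | ⟨pre, r'', o', ha⟩
      · cases lQ with
        | nil =>
          rw [List.nil_append] at h3
          cases X with
          | nil => rw [hn] at h3; cases h3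
          | cons z l =>
            rw [ha] at h3
            obtain ⟨rfl, rfl⟩ := Prod.mk.inj (Option.some.inj h3)
            obtain ⟨res, m, h4, h5⟩ := LV.of_acc t l s' [z] r'' ms₁ (by simp) hacc
            have hmk : m ≤ ms₁.length := by
              match res, h5 with
              | none, h5 => exact le_of_eq (Eq.symm h5)
              | some (_, _), ⟨_, _, _, _, h6⟩ => omega
            have h6 : (s', m, res.map fun p => (p.1, code M k m p.2)) ∈ vis M k (z :: l) :=
              ⟨show m ≤ k by omega, z, l, res, rfl, h4, rfl⟩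
            obtain ⟨_, z', l', res', hX', h7, h8⟩ := h h6
            simp only at h7 h8
            subst hX'
            -- the continuation for `X'`
            have hR : ∃ B', Rest M r'' m ms₁.length B' res' := by
              match res, res', h4, h5, h7, h8 with
              | none, none, _, h5, _, _ => exact ⟨0, h5⟩
              | some (u, l₁), some (u', l₁'), h4, ⟨t', ht', ms', h9, h10⟩, h7, h8 =>
                simp only [Option.map_some, Option.some.injEq, Prod.mk.injEq] at h8
                obtain ⟨rfl, h8⟩ := h8
                by_cases hm : m = 0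
                · have e1 := h4.content hm _ _ rfl
                  have e2 := h7.content hm _ _ rfl
                  simp only [List.reverse_cons, List.reverse_nil, List.nil_append,
                    List.cons_append] at e1 e2
                  subst e1 e2
                  obtain ⟨t'', ms'', h11, h12⟩ := IH t' (by omega) [] u r'' ms' h9 (by omega)
                  exact ⟨t'' + 1, t'', by omega, ms'', h11, by omega⟩
                · simp only [code, hm, if_false] at h8
                  have h11 : (ms'.length, u, r'') ∈ fut M (k - m) l₁ :=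
                    ⟨by simp only; omega, t', ms', h9, rfl⟩
                  rw [h8] at h11
                  obtain ⟨_, t'', ms'', h12, h13⟩ := h11
                  exact ⟨t'' + 1, t'', by omega, ms'', h12, by simp only at h13; omega⟩
            obtain ⟨B', hR⟩ := hR
            obtain ⟨t', ms', h9, h10⟩ := h7.to_acc r'' _ B' hR
            refine ⟨t' + 1, o' ++ ms',
              .step hF (step_iff.mpr ⟨x, r', s', p, rfl, h2, ?_⟩) h9, ?_⟩
            · change act s' x r' p (z' :: l') = _
              rw [ha]
              rfl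
            · rw [List.length_append, List.length_append, h10]
        | cons z lQ =>
          rw [List.cons_append, ha] at h3
          obtain ⟨rfl, rfl⟩ := Prod.mk.inj (Option.some.inj h3)
          obtain ⟨t', ms', h4, h5⟩ := IH t (by omega) lQ s' (z :: r'') ms₁ hacc (by omega)
          refine ⟨t' + 1, o' ++ ms', .step hF (step_iff.mpr ⟨x, r', s', p, rfl, h2, ?_⟩) h4, ?_⟩
          · change act s' x r' p ((z :: lQ) ++ X') = _
            rw [List.cons_append, ha]
          · rw [List.length_append, List.length_append, h5]
      · rw [ha] at h3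
        obtain ⟨rfl, rfl⟩ := Prod.mk.inj (Option.some.inj h3)
        obtain ⟨t', ms', h4, h5⟩ := IH t (by omega) (pre ++ lQ) s' r'' ms₁
          (by simpa using hacc) (by omega)
        refine ⟨t' + 1, o' ++ ms', .step hF (step_iff.mpr ⟨x, r', s', p, rfl, h2, ha _⟩)
          (by simpa using h4), ?_⟩
        rw [List.length_append, List.length_append, h5]

/-- a function which factors through a function with finite range has finite range -/
theorem finite_range_of_factor {α β γ : Type*} {f : α → β} {g : α → γ}
    (hg : (Set.range g).Finite) (h : ∀ a b, g a = g b → f a = f b) : (Set.range f).Finite := by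
  classical
  by_cases hα : Nonempty α
  · refine (hg.image fun y => f (Function.invFun g y)).subset ?_
    rintro _ ⟨a, rfl⟩
    exact ⟨g a, ⟨a, rfl⟩, h _ _ (Function.invFun_eq ⟨a, rfl⟩)⟩
  · have : IsEmpty α := not_nonempty_iff.mp hα
    rw [Set.range_eq_empty]
    exact Set.finite_empty

theorem fut_finite (M : Forg A) (k : ℕ) : (Set.range (fut M k)).Finite := by
  classical
  have hS : Finite M.S := M.fin
  induction k using Nat.strong_induction_on with
  | _ k IH =>
    refine finite_range_of_factor (g := vis M k) ?_ ?_
    · -- finitely many codes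
      let Φ : Set (Set (ℕ × M.S × List (Sym A))) :=
        {∅} ∪ ⋃ j ∈ Set.Iio k, Set.range (fut M j)
      have hΦ : Φ.Finite := (Set.finite_singleton _).union
        ((Set.finite_Iio k).biUnion fun j hj => IH j hj)
      let U : Set (Option (M.S × Set (ℕ × M.S × List (Sym A)))) :=
        {none} ∪ some '' (Set.univ ×ˢ Φ)
      have hU : U.Finite := (Set.finite_singleton _).union
        ((Set.finite_univ.prod hΦ).image _)
      have hV : ((Set.univ : Set M.S) ×ˢ (Set.Iic k ×ˢ U)).Finite :=
        Set.finite_univ.prod ((Set.finite_Iic k).prod hU)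
      refine hV.finite_subsets.subset ?_
      rintro _ ⟨X, rfl⟩
      rintro ⟨s, m, o⟩ ⟨h1, z, l, res, h2, h3, h4⟩
      refine ⟨Set.mem_univ _, h1, ?_⟩
      simp only at h4
      rw [h4]
      cases res with
      | none => exact Or.inl rfl
      | some p =>
        refine Or.inr ⟨_, ⟨Set.mem_univ _, ?_⟩, rfl⟩
        change code M k m p.2 ∈ Φ
        by_cases hm : m = 0
        · simp only [code, hm, if_true]
          exact Or.inl rfl
        · simp only [code, hm, if_false]
          refine Or.inr (Set.mem_biUnion (x := k - m) ?_ ⟨p.2, rfl⟩)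
          have h1' : m ≤ k := h1
          exact Set.mem_Iio.mpr (by omega)
    · have key : ∀ X X' : List (Sym A), vis M k X ⊆ vis M k X' → fut M k X ⊆ fut M k X' := by
        rintro X X' h ⟨j, s, r⟩ ⟨h1, t, ms, h2, h3⟩
        simp only at h1 h3
        obtain ⟨t', ms', h4, h5⟩ := fut_of_vis h t [] s r ms h2 (by omega)
        exact ⟨h1, t', ms', h4, h5.trans h3⟩
      intro X X' h
      exact Set.Subset.antisymm (key X X' h.subset) (key X' X h.symm.subset)

/-- the words accepted with at most `k` changes form a regular language -/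
theorem regular_of_bounded (M : Forg A) (k : ℕ) :
    Language.IsRegular ({w | M.AcceptsChanges w k} : Set (List A)) := by
  classical
  have hS : Finite M.S := M.fin
  apply Language.IsRegular.of_finite_range_leftQuotient
  -- the first phase
  let G : List A → Set (ℕ × Option (M.S × Set (ℕ × M.S × List (Sym A)))) := fun x =>
    {q | q.1 ≤ k ∧ ∃ res, LV M [] M.start (Sym.lend :: x.map Sym.letter) res q.1 ∧
      q.2 = res.map fun p => (p.1, fut M k p.2)}
  refine finite_range_of_factor (g := G) ?_ ?_
  · let U : Set (Option (M.S × Set (ℕ × M.S × List (Sym A)))) :=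
      {none} ∪ some '' (Set.univ ×ˢ Set.range (fut M k))
    have hU : U.Finite := (Set.finite_singleton _).union
      ((Set.finite_univ.prod (fut_finite M k)).image _)
    refine ((Set.finite_Iic k).prod hU).finite_subsets.subset ?_
    rintro _ ⟨x, rfl⟩
    rintro ⟨m, o⟩ ⟨h1, res, h2, h3⟩
    refine ⟨h1, ?_⟩
    simp only at h3
    rw [h3]
    cases res with
    | none => exact Or.inl rfl
    | some p => exact Or.inr ⟨_, ⟨Set.mem_univ _, p.2, rfl⟩, rfl⟩
  · have key : ∀ x x' : List A, G x ⊆ G x' → ∀ y : List A, M.AcceptsChanges (x ++ y) k →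
        M.AcceptsChanges (x' ++ y) k := by
      intro x x' hG y h
      obtain ⟨t, ms, h1, h2⟩ := acceptsChanges_iff.mp h
      have hi : ∀ z : List A, M.init (z ++ y) = ⟨[], M.start,
          (Sym.lend :: z.map Sym.letter) ++ (y.map Sym.letter ++ [Sym.rend])⟩ := by
        intro z
        simp only [Forg.init, List.map_append, List.append_assoc, List.cons_append]
      rw [hi] at h1
      obtain ⟨res, m, h3, h4⟩ := LV.of_acc t [] M.start _ _ ms (by simp) h1
      have hmk : m ≤ ms.length := by
        match res, h4 with
        | none, h4 => exact le_of_eq (Eq.symm h4)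
        | some (_, _), ⟨_, _, _, _, h6⟩ => omega
      have h5 : (m, res.map fun p => (p.1, fut M k p.2)) ∈ G x :=
        ⟨by simp only; omega, res, h3, rfl⟩
      obtain ⟨_, res', h6, h7⟩ := hG h5
      simp only at h6 h7
      have hR : ∃ B', Rest M (y.map Sym.letter ++ [Sym.rend]) m ms.length B' res' := by
        match res, res', h4, h7 with
        | none, none, h4, _ => exact ⟨0, h4⟩
        | some (u, l₁), some (u', l₁'), ⟨t', ht', ms', h9, h10⟩, h7 =>
          simp only [Option.map_some, Option.some.injEq, Prod.mk.injEq] at h7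
          obtain ⟨rfl, h7⟩ := h7
          have h11 : (ms'.length, u, y.map Sym.letter ++ [Sym.rend]) ∈ fut M k l₁ :=
            ⟨by simp only; omega, t', ms', h9, rfl⟩
          rw [h7] at h11
          obtain ⟨_, t'', ms'', h12, h13⟩ := h11
          exact ⟨t'' + 1, t'', by omega, ms'', h12, by simp only at h13; omega⟩
      obtain ⟨B', hR⟩ := hR
      obtain ⟨t', ms', h9, h10⟩ := h6.to_acc _ _ B' hR
      rw [acceptsChanges_iff, hi]
      exact ⟨t', ms', h9, by omega⟩
    intro x x' h
    ext y
    exact ⟨key x x' h.subset y, key x' x h.symm.subset y⟩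

end Pool.Agent.Lib.MP_e11118_lc
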