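import Pool.Agent.Lib.MP_e11118_lc.Basic

/-! Tagged letters. -/

set_option autoImplicit false

namespace Pool.Agent.Lib.MP_e11118_lc

variable {A τ : Type}

/-- forget the tag -/
def untag : Sym (A × τ) → Sym A
  | Sym.lend => Sym.lend
  | Sym.rend => Sym.rend
  | Sym.blank => Sym.blank
  | Sym.letter a => Sym.letter a.1

/-- the automaton on tagged letters -/
def Forg.tag (M : Forg A) (τ : Type) : Forg (A × τ) where
  S := M.S
  fin := M.fin
  δ := fun s x => M.δ s (untag x)
  start := M.start
  F := M.F
  on_lend := fun s p h => M.on_lend s p h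
  on_rend := fun s p h => M.on_rend s p h

/-- forget the tags of a configuration -/
def untagC {S : Type} (c : Conf (A × τ) S) : Conf A S :=
  ⟨c.left.map untag, c.st, c.right.map untag⟩

theorem lost_untag (x : Sym (A × τ)) : lost (untag x) = (lost x).map untag := by
  cases x <;> rfl

theorem untag_blank : untag (Sym.blank : Sym (A × τ)) = Sym.blank := rfl

theorem act_untag {S : Type} (s : S) (x : Sym (A × τ)) (r l : List (Sym (A × τ))) (p : Op) :
    act s (untag x) (r.map untag) p (l.map untag) =
      (act s x r p l).map fun q => (untagC q.1, q.2.map untag) := by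
  cases p <;> cases l <;> simp [act, untagC, lost_untag, untag_blank]

theorem Step.lift {M : Forg A} {c : Conf (A × τ) M.S} {c' : Conf A M.S} {o : List (Sym A)}
    (h : Step M (untagC c) c' o) : ∃ (d : Conf (A × τ) M.S) (o' : List (Sym (A × τ))),
      Step (M.tag τ) c d o' ∧ untagC d = c' ∧ o'.map untag = o := by
  obtain ⟨x, r, s', p, h1, h2, h3⟩ := step_iff.mp h
  obtain ⟨x', r', h4, rfl, rfl⟩ := List.map_eq_cons_iff.mp h1
  have h5 := act_untag s' x' r' c.left p
  change act s' (untag x') (r'.map untag) p (c.left.map untag) = _ at h3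
  rw [h3] at h5
  cases h6 : act s' x' r' p c.left with
  | none => rw [h6] at h5; simp at h5
  | some q =>
    rw [h6] at h5
    simp only [Option.map_some, Option.some.injEq, Prod.mk.injEq] at h5
    exact ⟨q.1, q.2, step_iff.mpr ⟨x', r', s', p, h4, h2, h6⟩, h5.1.symm, h5.2.symm⟩

theorem Step.proj {M : Forg A} {c d : Conf (A × τ) M.S} {o : List (Sym (A × τ))}
    (h : Step (M.tag τ) c d o) : Step M (untagC c) (untagC d) (o.map untag) := by
  obtain ⟨x, r, s', p, h1, h2, h3⟩ := step_iff.mp h
  refine step_iff.mpr ⟨untag x, r.map untag, s', p, ?_, h2, ?_⟩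
  · change c.right.map untag = _
    rw [h1]
    rfl
  · change act s' (untag x) (r.map untag) p (c.left.map untag) = _
    rw [act_untag]
    have h4 : act s' x r p c.left = some (d, o) := h3
    rw [h4]
    rfl

theorem Acc.lift {M : Forg A} {c : Conf A M.S} {t : ℕ} {ms : List (Sym A)} (h : Acc M c t ms) :
    ∀ c' : Conf (A × τ) M.S, untagC c' = c →
      ∃ ms' : List (Sym (A × τ)), Acc (M.tag τ) c' t ms' ∧ ms'.map untag = ms := by
  induction h with
  | done hc =>
    rintro c' rfl
    exact ⟨[], .done hc, rfl⟩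
  | step hc hs _ ih =>
    rintro c' rfl
    obtain ⟨d, o', h1, h2, h3⟩ := Step.lift hs
    obtain ⟨ms', h4, h5⟩ := ih d h2
    exact ⟨o' ++ ms', .step hc h1 h4, by rw [List.map_append, h3, h5]⟩

theorem Acc.proj {M : Forg A} {c : Conf (A × τ) (M.tag τ).S} {t : ℕ} {ms : List (Sym (A × τ))}
    (h : Acc (M.tag τ) c t ms) : Acc M (untagC (S := M.S) c) t (ms.map untag) := by
  induction h with
  | done hc => exact .done hc
  | step hc hs _ ih =>
    rw [List.map_append]
    exact .step hc (Step.proj hs) ih

end Pool.Agent.Lib.MP_e11118_lc
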